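import Mathlib

open Matrix Complex
open scoped ComplexOrder InnerProductSpace

namespace Pool.Agent.Helper71.PhaseA

/-- Compactness of the convex hull of a compact set in finite dimension. -/
lemma isCompact_convexHull_of_isCompact {E : Type*} [NormedAddCommGroup E] [NormedSpace ℝ E]
    [FiniteDimensional ℝ E] {s : Set E} (hs : IsCompact s) : IsCompact (convexHull ℝ s) := by
  classical
  rcases s.eq_empty_or_nonempty with rfl | ⟨s0, hs0⟩
  · simp
  set d := Module.finrank ℝ E + 1 with hd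
  let F : (Fin d → ℝ) × (Fin d → E) → E := fun p => ∑ i, p.1 i • p.2 i
  have hF : Continuous F := by
    refine continuous_finsetSum _ (fun i _ => ?_)
    exact ((continuous_apply i).comp continuous_fst).smul ((continuous_apply i).comp continuous_snd)
  have hK : IsCompact ((stdSimplex ℝ (Fin d)) ×ˢ (Set.univ.pi (fun _ : Fin d => s))) :=
    (isCompact_stdSimplex ℝ (Fin d)).prod (isCompact_univ_pi (fun _ => hs))
  have himg : convexHull ℝ s = F '' ((stdSimplex ℝ (Fin d)) ×ˢ (Set.univ.pi (fun _ : Fin d => s))) := by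
    apply Set.Subset.antisymm
    · intro x hx
      obtain ⟨ι, hι, z, w, hz, hai, hw, hw1, hx⟩ := eq_pos_convex_span_of_mem_convexHull hx
      have hcard : Fintype.card ι ≤ d := by
        have := hai.card_le_finrank_succ
        refine this.trans ?_
        have h2 : Module.finrank ℝ (vectorSpan ℝ (Set.range z)) ≤ Module.finrank ℝ E :=
          Submodule.finrank_le _
        omega
      obtain ⟨e⟩ : Nonempty (ι ↪ Fin d) := by
        apply Function.Embedding.nonempty_of_card_le
        simpa using hcard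
      let w' : Fin d → ℝ := fun j => if h : ∃ i, e i = j then w h.choose else 0
      let z' : Fin d → E := fun j => if h : ∃ i, e i = j then z h.choose else s0
      have hw'e : ∀ i, w' (e i) = w i := by
        intro i
        have h : ∃ i', e i' = e i := ⟨i, rfl⟩
        have hc : h.choose = i := e.injective h.choose_spec
        simp only [w', dif_pos h, hc]
      have hz'e : ∀ i, z' (e i) = z i := by
        intro i
        have h : ∃ i', e i' = e i := ⟨i, rfl⟩
        have hc : h.choose = i := e.injective h.choose_spec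
        simp only [z', dif_pos h, hc]
      have hw'0 : ∀ j, (¬ ∃ i, e i = j) → w' j = 0 := by
        intro j hj
        simp only [w', dif_neg hj]
      refine ⟨(w', z'), ⟨⟨?_, ?_⟩, ?_⟩, ?_⟩
      · intro j
        by_cases h : ∃ i, e i = j
        · obtain ⟨i, rfl⟩ := h
          show 0 ≤ w' (e i)
          rw [hw'e]; exact (hw i).le
        · show 0 ≤ w' j
          rw [hw'0 j h]
      · have : ∑ j, w' j = ∑ i, w' (e i) := by
          symm
          rw [← Finset.sum_map Finset.univ e w']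
          apply Finset.sum_subset (Finset.subset_univ _)
          intro j _ hj
          apply hw'0
          rintro ⟨i, hi⟩
          apply hj
          simp only [Finset.mem_map, Finset.mem_univ, true_and]
          exact ⟨i, hi⟩
        show ∑ j, w' j = 1
        rw [this]
        simpa [hw'e] using hw1
      · intro j _
        by_cases h : ∃ i, e i = j
        · obtain ⟨i, rfl⟩ := h
          show z' (e i) ∈ s
          rw [hz'e]; exact hz ⟨i, rfl⟩
        · show z' j ∈ s
          simp only [z', dif_neg h]; exact hs0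
      · show ∑ j, w' j • z' j = x
        have : ∑ j, w' j • z' j = ∑ i, w' (e i) • z' (e i) := by
          symm
          rw [← Finset.sum_map Finset.univ e (fun j => w' j • z' j)]
          apply Finset.sum_subset (Finset.subset_univ _)
          intro j _ hj
          have : w' j = 0 := by
            apply hw'0
            rintro ⟨i, hi⟩
            apply hj
            simp only [Finset.mem_map, Finset.mem_univ, true_and]
            exact ⟨i, hi⟩
          rw [this, zero_smul]
        rw [this]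
        simpa [hw'e, hz'e] using hx
    · rintro x ⟨⟨w, z⟩, ⟨⟨hw0, hw1⟩, hz⟩, rfl⟩
      apply (convex_convexHull ℝ s).sum_mem (fun i _ => hw0 i) hw1
      intro i _
      exact subset_convexHull ℝ s (hz i (Set.mem_univ i))
  rw [himg]
  exact hK.image hF


/-- `f` is the diagonal of a Hermitian form, in the only way we need. -/
def IsForm {E : Type*} [AddCommGroup E] [Module ℂ E] (f : E → ℝ) : Prop :=
  ∀ x y : E, ∃ c : ℂ, ∀ (p : ℝ) (q : ℂ),
    f ((p : ℂ) • x + q • y) = p ^ 2 * f x + ‖q‖ ^ 2 * f y + 2 * ((p : ℂ) * q * c).re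

lemma IsForm.add {E : Type*} [AddCommGroup E] [Module ℂ E] {f g : E → ℝ}
    (hf : IsForm f) (hg : IsForm g) : IsForm (fun x => f x + g x) := by
  intro x y
  obtain ⟨c, hc⟩ := hf x y
  obtain ⟨d, hd⟩ := hg x y
  refine ⟨c + d, fun p q => ?_⟩
  show f _ + g _ = p ^ 2 * (f x + g x) + ‖q‖ ^ 2 * (f y + g y) + 2 * ((p : ℂ) * q * (c + d)).re
  have : ((p : ℂ) * q * (c + d)).re = ((p : ℂ) * q * c).re + ((p : ℂ) * q * d).re := by
    rw [mul_add, Complex.add_re]
  rw [hc p q, hd p q, this]
  ring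

lemma IsForm.const_mul {E : Type*} [AddCommGroup E] [Module ℂ E] {f : E → ℝ}
    (hf : IsForm f) (a : ℝ) : IsForm (fun x => a * f x) := by
  intro x y
  obtain ⟨c, hc⟩ := hf x y
  refine ⟨(a : ℂ) * c, fun p q => ?_⟩
  show a * f _ = _
  rw [hc p q]
  have : ((p : ℂ) * q * ((a : ℂ) * c)).re = a * ((p : ℂ) * q * c).re := by
    rw [show (p : ℂ) * q * ((a : ℂ) * c) = (a : ℂ) * ((p : ℂ) * q * c) by ring, Complex.re_ofReal_mul]
  rw [this]; ring

/-- The cone generated by three Hermitian forms is closed under addition. -/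
lemma three_forms {E : Type*} [AddCommGroup E] [Module ℂ E] {f g h : E → ℝ}
    (hf : IsForm f) (hg : IsForm g) (hh : IsForm h) (x y : E) :
    ∃ z : E, f z = f x + f y ∧ g z = g x + g y ∧ h z = h x + h y := by
  obtain ⟨a, ha⟩ := hf x y
  obtain ⟨b, hb⟩ := hg x y
  obtain ⟨c, hc⟩ := hh x y
  -- the linear map ℝ^4 → ℝ^3
  let L : (Fin 4 → ℝ) →ₗ[ℝ] (Fin 3 → ℝ) := Matrix.toLin'
    !![f x, f y, 2 * a.re, -2 * a.im; g x, g y, 2 * b.re, -2 * b.im; h x, h y, 2 * c.re, -2 * c.im]
  have hker : L.ker ≠ ⊥ := by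
    apply LinearMap.ker_ne_bot_of_finrank_lt
    simp
  obtain ⟨v, hv, hv0⟩ := (Submodule.ne_bot_iff _).1 hker
  have hLv : L v = 0 := hv
  -- WLOG v 0 + v 1 ≥ 0
  obtain ⟨w, hw, hw0, hw01⟩ : ∃ w : Fin 4 → ℝ, L w = 0 ∧ w ≠ 0 ∧ 0 ≤ w 0 + w 1 := by
    by_cases h01 : 0 ≤ v 0 + v 1
    · exact ⟨v, hLv, hv0, h01⟩
    · refine ⟨-v, by rw [map_neg, hLv, neg_zero], by simpa using hv0, ?_⟩
      simp only [Pi.neg_apply]; linarith
  have e0 := congrFun hw 0
  have e1 := congrFun hw 1
  have e2 := congrFun hw 2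
  simp [L, Matrix.mulVec, dotProduct, Fin.sum_univ_four, Matrix.toLin'_apply] at e0 e1 e2
  set α := w 0 with hα
  set β := w 1 with hβ
  set r := w 2 with hr
  set i := w 3 with hi
  set S : ℝ := r ^ 2 + i ^ 2 with hS
  have hne : α ≠ 0 ∨ β ≠ 0 ∨ 0 < S := by
    by_contra hcon
    push Not at hcon
    obtain ⟨h0, h1, h2⟩ := hcon
    apply hw0
    have hr0 : r = 0 := by nlinarith [sq_nonneg r, sq_nonneg i]
    have hi0 : i = 0 := by nlinarith [sq_nonneg r, sq_nonneg i]
    ext j
    fin_cases j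
    · simpa using h0
    · simpa using h1
    · simpa using hr0
    · simpa using hi0
  set D : ℝ := Real.sqrt ((α - β) ^ 2 + 4 * S) with hD
  have hS0 : 0 ≤ S := by positivity
  have hDsq : D ^ 2 = (α - β) ^ 2 + 4 * S := Real.sq_sqrt (by positivity)
  have hD0 : 0 ≤ D := Real.sqrt_nonneg _
  set ν : ℝ := (α + β + D) / 2 with hν
  have hDα : |α - β| ≤ D := by
    apply Real.abs_le_sqrt
    linarith
  have hνα : α ≤ ν := by
    have := (abs_le.1 hDα).2
    rw [hν]; linarith
  have hνβ : β ≤ ν := by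
    have := (abs_le.1 hDα).1
    rw [hν]; linarith
  have hνpos : 0 < ν := by
    by_contra hcon
    have hν0 : ν ≤ 0 := not_lt.1 hcon
    have hD00 : D = 0 := by rw [hν] at hν0; linarith
    have hαβ : α + β = 0 := by rw [hν] at hν0; linarith
    rw [hD00] at hDsq
    have hs : S = 0 := by nlinarith [sq_nonneg (α - β)]
    have hab : α - β = 0 := by
      have : (α - β) ^ 2 = 0 := by nlinarith
      exact pow_eq_zero_iff (two_ne_zero) |>.1 this
    rcases hne with h' | h' | h'
    · apply h'; linarith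
    · apply h'; linarith
    · linarith
  have hprod : (ν - α) * (ν - β) = S := by
    rw [hν]; nlinarith [hDsq]
  set P : ℝ := Real.sqrt ((ν - α) / ν) with hP
  set Q : ℝ := Real.sqrt ((ν - β) / ν) with hQ
  have hP2 : P ^ 2 = (ν - α) / ν := Real.sq_sqrt (div_nonneg (by linarith) hνpos.le)
  have hQ2 : Q ^ 2 = (ν - β) / ν := Real.sq_sqrt (div_nonneg (by linarith) hνpos.le)
  have hP0 : 0 ≤ P := Real.sqrt_nonneg _
  have hQ0 : 0 ≤ Q := Real.sqrt_nonneg _
  set ω : ℂ := ⟨r, i⟩ with hω
  have hωn : ‖ω‖ ^ 2 = S := by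
    rw [Complex.sq_norm, Complex.normSq_apply]; simp [hω, hS]; ring
  have hPQ : P * Q = ‖ω‖ / ν := by
    have h1 : (P * Q) ^ 2 = (‖ω‖ / ν) ^ 2 := by
      rw [mul_pow, hP2, hQ2, div_pow, hωn, ← hprod]
      field_simp
    exact (sq_eq_sq₀ (mul_nonneg hP0 hQ0) (by positivity)).1 h1
  obtain ⟨u, hu1, hu⟩ : ∃ u : ℂ, ‖u‖ = 1 ∧ (‖ω‖ : ℂ) * u = -ω := by
    by_cases h0 : ω = 0
    · exact ⟨1, by simp, by simp [h0]⟩
    · refine ⟨-ω / ‖ω‖, ?_, ?_⟩
      · rw [norm_div, norm_neg, Complex.norm_real, norm_norm, div_self (norm_ne_zero_iff.2 h0)]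
      · have : (‖ω‖ : ℂ) ≠ 0 := by exact_mod_cast norm_ne_zero_iff.2 h0
        field_simp
  have hq : ‖(Q : ℂ) * u‖ ^ 2 = (ν - β) / ν := by
    rw [norm_mul, hu1, mul_one, Complex.norm_real, Real.norm_of_nonneg hQ0, hQ2]
  have hpq : (P : ℂ) * ((Q : ℂ) * u) = -ω / (ν : ℂ) := by
    rw [← mul_assoc, ← Complex.ofReal_mul, hPQ, ← hu]
    push_cast
    ring
  have key : ∀ (fx fy : ℝ) (d : ℂ), fx * α + fy * β + 2 * d.re * r - 2 * d.im * i = 0 →
      P ^ 2 * fx + ‖(Q : ℂ) * u‖ ^ 2 * fy + 2 * ((P : ℂ) * ((Q : ℂ) * u) * d).re = fx + fy := by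
    intro fx fy d hd
    rw [hP2, hq, hpq]
    have : (-ω / (ν : ℂ) * d).re = -(r * d.re - i * d.im) / ν := by
      rw [show -ω / (ν : ℂ) * d = -(ω * d) / (ν : ℂ) by ring, Complex.div_ofReal_re, Complex.neg_re,
        Complex.mul_re]
    rw [this]
    field_simp
    linarith
  refine ⟨(P : ℂ) • x + ((Q : ℂ) * u) • y, ?_, ?_, ?_⟩
  · rw [ha]; apply key; linarith
  · rw [hb]; apply key; linarith
  · rw [hc]; apply key; linarith


section inner

variable {E : Type*} [NormedAddCommGroup E] [InnerProductSpace ℂ E]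

lemma isForm_normSq (T : E →ₗ[ℂ] E) : IsForm (fun x => ‖T x‖ ^ 2) := by
  intro x y
  refine ⟨inner ℂ (T x) (T y), fun p q => ?_⟩
  show ‖T _‖ ^ 2 = p ^ 2 * ‖T x‖ ^ 2 + ‖q‖ ^ 2 * ‖T y‖ ^ 2 + _
  rw [map_add, map_smul, map_smul, @norm_add_sq ℂ, norm_smul, norm_smul, inner_smul_left,
    inner_smul_right, Complex.conj_ofReal, Complex.norm_real, mul_pow, mul_pow, Real.norm_eq_abs,
    sq_abs]
  simp only [RCLike.re_to_complex, mul_assoc]
  ring

lemma isForm_re (T : E →ₗ[ℂ] E) : IsForm (fun x => (inner ℂ x (T x)).re) := by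
  intro x y
  refine ⟨(inner ℂ x (T y) + (starRingEnd ℂ) (inner ℂ y (T x))) / 2, fun p q => ?_⟩
  show (inner ℂ _ (T _)).re = p ^ 2 * (inner ℂ x (T x)).re + ‖q‖ ^ 2 * (inner ℂ y (T y)).re + _
  rw [map_add, map_smul, map_smul, inner_add_left, inner_add_right, inner_add_right,
    inner_smul_left, inner_smul_left, inner_smul_right, inner_smul_right, inner_smul_left,
    inner_smul_left, inner_smul_right, inner_smul_right, Complex.conj_ofReal]
  generalize (inner ℂ x (T x) : ℂ) = A
  generalize (inner ℂ x (T y) : ℂ) = B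
  generalize (inner ℂ y (T x) : ℂ) = C
  generalize (inner ℂ y (T y) : ℂ) = D
  rw [Complex.sq_norm, Complex.normSq_apply]
  simp only [Complex.add_re, Complex.mul_re, Complex.mul_im, Complex.conj_re, Complex.conj_im,
    Complex.ofReal_re, Complex.ofReal_im, Complex.div_ofNat_re, Complex.div_ofNat_im,
    Complex.add_im]
  ring

lemma isForm_im (T : E →ₗ[ℂ] E) : IsForm (fun x => (inner ℂ x (T x)).im) := by
  intro x y
  refine ⟨(-I * inner ℂ x (T y) + I * (starRingEnd ℂ) (inner ℂ y (T x))) / 2, fun p q => ?_⟩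
  show (inner ℂ _ (T _)).im = p ^ 2 * (inner ℂ x (T x)).im + ‖q‖ ^ 2 * (inner ℂ y (T y)).im + _
  rw [map_add, map_smul, map_smul, inner_add_left, inner_add_right, inner_add_right,
    inner_smul_left, inner_smul_left, inner_smul_right, inner_smul_right, inner_smul_left,
    inner_smul_left, inner_smul_right, inner_smul_right, Complex.conj_ofReal]
  generalize (inner ℂ x (T x) : ℂ) = A
  generalize (inner ℂ x (T y) : ℂ) = B
  generalize (inner ℂ y (T x) : ℂ) = C
  generalize (inner ℂ y (T y) : ℂ) = D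
  rw [Complex.sq_norm, Complex.normSq_apply]
  simp only [Complex.add_re, Complex.mul_re, Complex.mul_im, Complex.conj_re, Complex.conj_im,
    Complex.ofReal_re, Complex.ofReal_im, Complex.div_ofNat_re, Complex.div_ofNat_im,
    Complex.add_im, Complex.neg_re, Complex.neg_im, Complex.I_re, Complex.I_im]
  ring

end inner

end Pool.Agent.Helper71.PhaseA
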