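import Mathlib
import Pool.Agent.Helper71.PhaseA

open Matrix Complex
open scoped ComplexOrder InnerProductSpace

namespace Pool.Agent.Helper71.PhaseB

open Pool.Agent.Helper71.PhaseA

/-- closed sector of half-angle `θ` around the positive real axis -/
def Sec (θ : ℝ) (z : ℂ) : Prop := 0 ≤ z.re ∧ Real.cos θ * |z.im| ≤ Real.sin θ * z.re

variable {E : Type*} [NormedAddCommGroup E] [InnerProductSpace ℂ E]

/-- The LMI in terms of quadratic forms. -/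
def Feas (θ : ℝ) (T : E →ₗ[ℂ] E) (γ : ℝ) : Prop :=
  ∃ r : ℝ, 0 < r ∧ ∃ β : ℝ, (0 < θ → -(Real.cot θ) ≤ β ∧ β ≤ Real.cot θ) ∧
    ∀ x : E, x ≠ 0 → r * (‖T x‖ ^ 2 - γ ^ 2 * ‖x‖ ^ 2)
      - 2 * ((inner ℂ x (T x)).re - β * (inner ℂ x (T x)).im) < 0

lemma form_smul {f : E → ℝ} (hf : IsForm f) (a : ℝ) (x : E) : f ((a : ℂ) • x) = a ^ 2 * f x := by
  obtain ⟨c, hc⟩ := hf x x
  have := hc a 0
  simpa using this

lemma form_zero {f : E → ℝ} (hf : IsForm f) : f 0 = 0 := by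
  have := form_smul hf 0 0
  simpa using this

lemma convex_range {f g h : E → ℝ} (hf : IsForm f) (hg : IsForm g) (hh : IsForm h) :
    Convex ℝ {p : ℝ × ℝ × ℝ | ∃ x, (f x, g x, h x) = p} := by
  rintro _ ⟨x, rfl⟩ _ ⟨y, rfl⟩ a b ha hb hab
  obtain ⟨z, h1, h2, h3⟩ := three_forms hf hg hh (((Real.sqrt a : ℝ) : ℂ) • x)
    (((Real.sqrt b : ℝ) : ℂ) • y)
  refine ⟨z, ?_⟩
  rw [h1, h2, h3, form_smul hf, form_smul hf, form_smul hg, form_smul hg, form_smul hh,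
    form_smul hh, Real.sq_sqrt ha, Real.sq_sqrt hb]
  simp

lemma cos_nonneg' {θ : ℝ} (h0 : 0 ≤ θ) (h1 : θ ≤ Real.pi / 2) : 0 ≤ Real.cos θ :=
  Real.cos_nonneg_of_mem_Icc ⟨by linarith [Real.pi_pos], h1⟩

lemma sin_nonneg' {θ : ℝ} (h0 : 0 ≤ θ) (h1 : θ ≤ Real.pi / 2) : 0 ≤ Real.sin θ :=
  Real.sin_nonneg_of_nonneg_of_le_pi h0 (by linarith [Real.pi_pos])

lemma sin_pos' {θ : ℝ} (h0 : 0 < θ) (h1 : θ ≤ Real.pi / 2) : 0 < Real.sin θ :=
  Real.sin_pos_of_pos_of_lt_pi h0 (by linarith [Real.pi_pos])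

lemma isClosed_coneK (θ : ℝ) : IsClosed {p : ℝ × ℝ × ℝ | 0 ≤ p.1 ∧ p.2.1 ≤ 0 ∧
    Real.cos θ * |p.2.2| ≤ -(Real.sin θ * p.2.1)} := by
  have hA : IsClosed {p : ℝ × ℝ × ℝ | 0 ≤ p.1} := isClosed_le continuous_const continuous_fst
  have hB : IsClosed {p : ℝ × ℝ × ℝ | p.2.1 ≤ 0} :=
    isClosed_le (continuous_fst.comp continuous_snd) continuous_const
  have hC : IsClosed {p : ℝ × ℝ × ℝ | Real.cos θ * |p.2.2| ≤ -(Real.sin θ * p.2.1)} :=
    isClosed_le (continuous_const.mul (continuous_abs.comp (continuous_snd.comp continuous_snd)))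
      (continuous_const.mul (continuous_fst.comp continuous_snd)).neg
  exact hA.inter (hB.inter hC)

lemma convex_coneK {θ : ℝ} (hc : 0 ≤ Real.cos θ) : Convex ℝ {p : ℝ × ℝ × ℝ | 0 ≤ p.1 ∧ p.2.1 ≤ 0 ∧
    Real.cos θ * |p.2.2| ≤ -(Real.sin θ * p.2.1)} := by
  rintro ⟨p1, p2, p3⟩ ⟨hp1, hp2, hp3⟩ ⟨q1, q2, q3⟩ ⟨hq1, hq2, hq3⟩ a b ha hb hab
  simp only at hp1 hp2 hp3 hq1 hq2 hq3
  simp only [Prod.smul_mk, Prod.mk_add_mk, smul_eq_mul, Set.mem_ofPred_eq]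
  refine ⟨by positivity, ?_, ?_⟩
  · nlinarith
  · have h1 : |a * p3 + b * q3| ≤ a * |p3| + b * |q3| := by
      refine (abs_add_le _ _).trans ?_
      rw [abs_mul, abs_mul, abs_of_nonneg ha, abs_of_nonneg hb]
    calc Real.cos θ * |a * p3 + b * q3| ≤ Real.cos θ * (a * |p3| + b * |q3|) :=
          mul_le_mul_of_nonneg_left h1 hc
      _ = a * (Real.cos θ * |p3|) + b * (Real.cos θ * |q3|) := by ring
      _ ≤ a * (-(Real.sin θ * p2)) + b * (-(Real.sin θ * q2)) := by gcongr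
      _ = -(Real.sin θ * (a * p2 + b * q2)) := by ring

variable [FiniteDimensional ℂ E]

lemma dual_lemma {θ : ℝ} (h0 : 0 ≤ θ) (h1 : θ ≤ Real.pi / 2) (T : E →ₗ[ℂ] E) {γ γ' : ℝ}
    (hγ : 0 ≤ γ) (hγ' : γ < γ') (hF : ¬ Feas θ T γ') :
    ∃ x : E, x ≠ 0 ∧ γ ^ 2 * ‖x‖ ^ 2 ≤ ‖T x‖ ^ 2 ∧ Sec θ (-(inner ℂ x (T x))) := by
  by_contra hcon
  push Not at hcon
  apply hF
  have hcos := cos_nonneg' h0 h1
  have hsin := sin_nonneg' h0 h1
  have : ProperSpace E := FiniteDimensional.proper ℂ E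
  have hTc : Continuous T := T.continuous_of_finiteDimensional
  let Φ : E → ℝ × ℝ × ℝ := fun x =>
    (‖T x‖ ^ 2 - γ' ^ 2 * ‖x‖ ^ 2, (inner ℂ x (T x)).re, (inner ℂ x (T x)).im)
  have hΦc : Continuous Φ := by
    apply Continuous.prodMk
    · exact ((hTc.norm.pow 2).sub (continuous_const.mul (continuous_norm.pow 2)))
    · apply Continuous.prodMk
      · exact Complex.continuous_re.comp (continuous_id.inner hTc)
      · exact Complex.continuous_im.comp (continuous_id.inner hTc)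
  set C : Set (ℝ × ℝ × ℝ) := convexHull ℝ (Φ '' Metric.sphere 0 1) with hC
  have hCc : IsCompact C := isCompact_convexHull_of_isCompact ((isCompact_sphere 0 1).image hΦc)
  set K : Set (ℝ × ℝ × ℝ) := {p : ℝ × ℝ × ℝ | 0 ≤ p.1 ∧ p.2.1 ≤ 0 ∧
    Real.cos θ * |p.2.2| ≤ -(Real.sin θ * p.2.1)} with hK
  have hf1 : IsForm (fun x : E => ‖T x‖ ^ 2 + (-γ ^ 2) * ‖(LinearMap.id : E →ₗ[ℂ] E) x‖ ^ 2) :=
    (isForm_normSq T).add ((isForm_normSq (LinearMap.id : E →ₗ[ℂ] E)).const_mul (-γ ^ 2))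
  have hδ : 0 < γ' ^ 2 - γ ^ 2 := by nlinarith
  have hdisj : Disjoint C K := by
    rw [Set.disjoint_left]
    intro k hkC hkK
    have hsub : C ⊆ {p : ℝ × ℝ × ℝ | ∃ x : E, ((‖T x‖ ^ 2 + (-γ ^ 2) * ‖(LinearMap.id : E →ₗ[ℂ] E) x‖ ^ 2,
        (inner ℂ x (T x)).re, (inner ℂ x (T x)).im) : ℝ × ℝ × ℝ) = p + (γ' ^ 2 - γ ^ 2, 0, 0)} := by
      apply convexHull_min
      · rintro _ ⟨x, hx, rfl⟩
        refine ⟨x, ?_⟩
        have hx1 : ‖x‖ = 1 := by simpa using hx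
        simp only [Φ, LinearMap.id_apply, hx1, Prod.mk_add_mk, add_zero]
        ext
        · show ‖T x‖ ^ 2 + -γ ^ 2 * 1 ^ 2 = ‖T x‖ ^ 2 - γ' ^ 2 * 1 ^ 2 + (γ' ^ 2 - γ ^ 2)
          ring
        · rfl
        · rfl
      · have hconv := convex_range hf1 (isForm_re T) (isForm_im T)
        intro p hp q hq a b ha hb hab
        have := hconv hp hq ha hb hab
        obtain ⟨x, hx⟩ := this
        refine ⟨x, ?_⟩
        rw [hx]
        have : ((γ' ^ 2 - γ ^ 2, 0, 0) : ℝ × ℝ × ℝ) = a • (γ' ^ 2 - γ ^ 2, 0, 0) + b • (γ' ^ 2 - γ ^ 2, 0, 0) := by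
          rw [← add_smul, hab, one_smul]
        conv_rhs => rw [this]
        rw [smul_add, smul_add]
        abel
    obtain ⟨x, hx⟩ := hsub hkC
    obtain ⟨k1, k2, k3⟩ := k
    simp only [Prod.mk_add_mk, add_zero, Prod.mk.injEq, LinearMap.id_apply] at hx
    obtain ⟨hx1, hx2, hx3⟩ := hx
    obtain ⟨hk1, hk2, hk3⟩ := hkK
    simp only at hk1 hk2 hk3
    have hx0 : x ≠ 0 := by
      rintro rfl
      simp at hx1
      linarith
    refine hcon x hx0 (by linarith) ⟨?_, ?_⟩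
    · rw [Complex.neg_re, hx2]; linarith
    · rw [Complex.neg_re, Complex.neg_im, hx2, hx3, abs_neg]; linarith
  obtain ⟨f, c1, c2, hfC, hc12, hfK⟩ := geometric_hahn_banach_compact_closed
    (convex_convexHull ℝ (Φ '' Metric.sphere 0 1)) hCc (convex_coneK hcos) (isClosed_coneK θ) hdisj
  have hc2 : c2 < 0 := by
    have : (0 : ℝ × ℝ × ℝ) ∈ K := by simp [hK]
    simpa using hfK 0 this
  have hKpos : ∀ k ∈ K, 0 ≤ f k := by
    intro k hk
    by_contra hneg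
    push Not at hneg
    -- scale
    have hsc : ∀ t : ℝ, 0 ≤ t → t • k ∈ K := by
      rintro t ht
      obtain ⟨k1, k2, k3⟩ := k
      obtain ⟨hk1, hk2, hk3⟩ := hk
      simp only at hk1 hk2 hk3
      simp only [hK, Prod.smul_mk, smul_eq_mul, Set.mem_ofPred_eq]
      refine ⟨by positivity, by nlinarith, ?_⟩
      rw [abs_mul, abs_of_nonneg ht]
      nlinarith
    have := hfK _ (hsc (c2 / f k) (div_nonneg_of_nonpos hc2.le hneg.le))
    rw [map_smul, smul_eq_mul, div_mul_cancel₀ _ hneg.ne] at this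
    exact lt_irrefl _ this
  set r0 : ℝ := f (1, 0, 0) with hr0
  set s0 : ℝ := -f (0, 1, 0) with hs0
  set t0 : ℝ := f (0, 0, 1) with ht0
  have hfform : ∀ a b c : ℝ, f (a, b, c) = r0 * a - s0 * b + t0 * c := by
    intro a b c
    have : ((a, b, c) : ℝ × ℝ × ℝ) = a • (1, 0, 0) + b • (0, 1, 0) + c • (0, 0, 1) := by
      ext <;> simp
    rw [this, map_add, map_add, map_smul, map_smul, map_smul, smul_eq_mul, smul_eq_mul, smul_eq_mul,
      hr0, hs0, ht0]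
    ring
  have hr0' : 0 ≤ r0 := by
    have : ((1, 0, 0) : ℝ × ℝ × ℝ) ∈ K := by simp [hK]
    exact hKpos _ this
  have hs0' : 0 ≤ s0 := by
    have : ((0, -1, 0) : ℝ × ℝ × ℝ) ∈ K := by simp [hK, hsin]
    have := hKpos _ this
    rw [hfform] at this
    linarith
  have ht0' : |t0| * Real.sin θ ≤ s0 * Real.cos θ := by
    have hp : ((0, -Real.cos θ, Real.sin θ) : ℝ × ℝ × ℝ) ∈ K := by
      simp only [hK, Set.mem_ofPred_eq, le_refl, true_and]
      refine ⟨by linarith, ?_⟩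
      rw [abs_of_nonneg hsin]; linarith
    have hm : ((0, -Real.cos θ, -Real.sin θ) : ℝ × ℝ × ℝ) ∈ K := by
      simp only [hK, Set.mem_ofPred_eq, le_refl, true_and]
      refine ⟨by linarith, ?_⟩
      rw [abs_neg, abs_of_nonneg hsin]; linarith
    have h1 := hKpos _ hp
    have h2 := hKpos _ hm
    rw [hfform] at h1 h2
    rcases abs_cases t0 with ⟨h, _⟩ | ⟨h, _⟩ <;> rw [h] <;> linarith
  -- bound on the sphere
  obtain ⟨B, hB⟩ : ∃ B : ℝ, ∀ x : E, ‖x‖ = 1 → ‖T x‖ ^ 2 + |(inner ℂ x (T x)).re| ≤ B := by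
    have hcont : Continuous (fun x : E => ‖T x‖ ^ 2 + |(inner ℂ x (T x)).re|) :=
      (hTc.norm.pow 2).add (continuous_abs.comp (Complex.continuous_re.comp (continuous_id.inner hTc)))
    obtain ⟨B, hB⟩ := (isCompact_sphere (0 : E) 1).bddAbove_image hcont.continuousOn
    exact ⟨B, fun x hx => hB ⟨x, by simpa using hx, rfl⟩⟩
  have hB0 : 0 < |B| + 1 := by positivity
  set ε : ℝ := (-c1) / (|B| + 1) with hε
  have hc1 : c1 < 0 := by linarith
  have hεpos : 0 < ε := div_pos (by linarith) hB0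
  have hεB : ε * (|B| + 1) = -c1 := by rw [hε]; field_simp
  have hs1 : 0 < s0 + ε := by linarith
  refine ⟨2 * (r0 + ε) / (s0 + ε), by positivity, t0 / (s0 + ε), ?_, ?_⟩
  · intro hθ
    have hsp := sin_pos' hθ h1
    have : |t0 / (s0 + ε)| ≤ Real.cot θ := by
      rw [Real.cot_eq_cos_div_sin, abs_div, abs_of_pos hs1, div_le_div_iff₀ hs1 hsp]
      nlinarith
    exact abs_le.1 this
  · intro x hx
    have hxn : 0 < ‖x‖ := norm_pos_iff.2 hx
    -- normalise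
    set y : E := ((‖x‖⁻¹ : ℝ) : ℂ) • x with hy
    have hyn : ‖y‖ = 1 := by
      rw [hy, norm_smul, Complex.norm_real, Real.norm_of_nonneg (by positivity)]
      field_simp
    have hxy : x = ((‖x‖ : ℝ) : ℂ) • y := by
      rw [hy, smul_smul, ← Complex.ofReal_mul, mul_inv_cancel₀ hxn.ne', Complex.ofReal_one, one_smul]
    have e1 : ‖T x‖ ^ 2 = ‖x‖ ^ 2 * ‖T y‖ ^ 2 := by
      have := form_smul (isForm_normSq T) ‖x‖ y
      rw [← hxy] at this
      exact this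
    have e2 : (inner ℂ x (T x)).re = ‖x‖ ^ 2 * (inner ℂ y (T y)).re := by
      have := form_smul (isForm_re T) ‖x‖ y
      rw [← hxy] at this
      exact this
    have e3 : (inner ℂ x (T x)).im = ‖x‖ ^ 2 * (inner ℂ y (T y)).im := by
      have := form_smul (isForm_im T) ‖x‖ y
      rw [← hxy] at this
      exact this
    have hyC := hfC (Φ y) (subset_convexHull ℝ _ ⟨y, by simpa using hyn, rfl⟩)
    simp only [Φ] at hyC
    rw [hfform, hyn] at hyC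
    have hBy := hB y hyn
    have habs := abs_le.1 (le_refl |(inner ℂ y (T y)).re|)
    have hBB := le_abs_self B
    have key : (r0 + ε) * (‖T y‖ ^ 2 - γ' ^ 2) - (s0 + ε) * (inner ℂ y (T y)).re
        + t0 * (inner ℂ y (T y)).im < 0 := by
      have h3 : ε * (‖T y‖ ^ 2 - γ' ^ 2) - ε * (inner ℂ y (T y)).re ≤ ε * (|B| + 1) := by
        rw [← mul_sub]
        apply mul_le_mul_of_nonneg_left _ hεpos.le
        nlinarith [sq_nonneg γ', habs.1]
      nlinarith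
    rw [e1, e2, e3]
    have hkey2 : 2 * (r0 + ε) / (s0 + ε) * (‖x‖ ^ 2 * ‖T y‖ ^ 2 - γ' ^ 2 * ‖x‖ ^ 2) -
      2 * (‖x‖ ^ 2 * (inner ℂ y (T y)).re - t0 / (s0 + ε) * (‖x‖ ^ 2 * (inner ℂ y (T y)).im))
      = (2 * ‖x‖ ^ 2 / (s0 + ε)) * ((r0 + ε) * (‖T y‖ ^ 2 - γ' ^ 2) - (s0 + ε) * (inner ℂ y (T y)).re
        + t0 * (inner ℂ y (T y)).im) := by
      field_simp
      ring
    rw [hkey2]
    exact mul_neg_of_pos_of_neg (by positivity) key

end Pool.Agent.Helper71.PhaseB
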