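import Mathlib
import Pool.Agent.Helper71.PhaseB

open Matrix Complex
open scoped ComplexOrder InnerProductSpace

namespace Pool.Agent.Helper71.PhaseC

open Pool.Agent.Helper71.PhaseA Pool.Agent.Helper71.PhaseB

variable {E : Type*} [NormedAddCommGroup E] [InnerProductSpace ℂ E]

lemma Sec.conj {θ : ℝ} {z : ℂ} (h : Sec θ z) : Sec θ ((starRingEnd ℂ) z) := by
  obtain ⟨h1, h2⟩ := h
  refine ⟨by simpa using h1, by simpa using h2⟩

lemma Sec.smul {θ : ℝ} {z : ℂ} (h : Sec θ z) {t : ℝ} (ht : 0 ≤ t) : Sec θ ((t : ℂ) * z) := by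
  obtain ⟨h1, h2⟩ := h
  refine ⟨by simpa using mul_nonneg ht h1, ?_⟩
  rw [Complex.im_ofReal_mul, Complex.re_ofReal_mul, abs_mul, abs_of_nonneg ht]
  nlinarith

/-- for `θ > 0`, `cot θ * |Im z| ≤ Re z` -/
lemma Sec.cot_mul_le {θ : ℝ} {z : ℂ} (h : Sec θ z) (h0 : 0 < θ) (h1 : θ ≤ Real.pi / 2) :
    Real.cot θ * |z.im| ≤ z.re := by
  have hs := sin_pos' h0 h1
  rw [Real.cot_eq_cos_div_sin, div_mul_eq_mul_div, div_le_iff₀ hs]
  linarith [h.2]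

lemma sec_of_cot_mul_le {θ : ℝ} {z : ℂ} (h0 : 0 < θ) (h1 : θ ≤ Real.pi / 2)
    (h : Real.cot θ * |z.im| ≤ z.re) : Sec θ z := by
  have hs := sin_pos' h0 h1
  have hc := cos_nonneg' h0.le h1
  rw [Real.cot_eq_cos_div_sin, div_mul_eq_mul_div, div_le_iff₀ hs] at h
  refine ⟨?_, by linarith⟩
  have : 0 ≤ z.re * Real.sin θ := le_trans (by positivity) h
  exact nonneg_of_mul_nonneg_left this hs

lemma Sec.im_zero {z : ℂ} (h : Sec 0 z) : z.im = 0 := by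
  have := h.2
  simp only [Real.cos_zero, Real.sin_zero, one_mul, zero_mul] at this
  exact abs_nonpos_iff.1 this

lemma sec_iff_cos {θ : ℝ} {z : ℂ} (h0 : 0 ≤ θ) (h1 : θ ≤ Real.pi / 2) :
    Sec θ z ↔ Real.cos θ * ‖z‖ ≤ z.re := by
  have hs := sin_nonneg' h0 h1
  have hc := cos_nonneg' h0 h1
  have hsc := Real.sin_sq_add_cos_sq θ
  have hz : ‖z‖ ^ 2 = z.re ^ 2 + z.im ^ 2 := by
    rw [Complex.sq_norm, Complex.normSq_apply]; ring
  have hn := norm_nonneg z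
  constructor
  · rintro ⟨ha, hb⟩
    apply le_of_sq_le_sq _ ha
    have h2 : (Real.cos θ * |z.im|) ^ 2 ≤ (Real.sin θ * z.re) ^ 2 :=
      pow_le_pow_left₀ (by positivity) hb 2
    rw [mul_pow, mul_pow, sq_abs] at h2
    rw [mul_pow, hz]
    nlinarith
  · intro h
    have hre : 0 ≤ z.re := le_trans (by positivity) h
    refine ⟨hre, ?_⟩
    apply le_of_sq_le_sq _ (by positivity)
    have h2 : (Real.cos θ * ‖z‖) ^ 2 ≤ z.re ^ 2 := pow_le_pow_left₀ (by positivity) h 2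
    rw [mul_pow, hz] at h2
    rw [mul_pow, mul_pow, sq_abs]
    nlinarith

lemma feas_lt {θ : ℝ} (h0 : 0 ≤ θ) (h1 : θ ≤ Real.pi / 2) {T : E →ₗ[ℂ] E} {γ : ℝ} (hγ : 0 < γ)
    (hF : Feas θ T γ) {x : E} (hx : ‖x‖ = 1) (hS : Sec θ (-(inner ℂ x (T x)))) : ‖T x‖ < γ := by
  obtain ⟨r, hr, β, hβ, hall⟩ := hF
  have hx0 : x ≠ 0 := by
    rintro rfl
    simp at hx
  have := hall x hx0
  rw [hx] at this
  have hle : (inner ℂ x (T x)).re - β * (inner ℂ x (T x)).im ≤ 0 := by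
    rcases h0.eq_or_lt with h | h
    · subst h
      have hi := Sec.im_zero hS
      have hr := hS.1
      rw [Complex.neg_im, neg_eq_zero] at hi
      rw [Complex.neg_re] at hr
      rw [hi]; linarith
    · have hb := hβ h
      have hc := Sec.cot_mul_le hS h h1
      rw [Complex.neg_im, Complex.neg_re, abs_neg] at hc
      have hcot : |β| ≤ Real.cot θ := abs_le.2 hb
      have h3 : -(β * (inner ℂ x (T x)).im) ≤ |β| * |(inner ℂ x (T x)).im| := by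
        rw [← abs_mul]; exact neg_le_abs _
      have h4 : |β| * |(inner ℂ x (T x)).im| ≤ Real.cot θ * |(inner ℂ x (T x)).im| :=
        mul_le_mul_of_nonneg_right hcot (abs_nonneg _)
      linarith
  have h5 : r * (‖T x‖ ^ 2 - γ ^ 2 * 1 ^ 2) < 0 := by linarith
  have h6 : ‖T x‖ ^ 2 < γ ^ 2 := by
    have := (mul_neg_iff.1 h5)
    rcases this with ⟨_, h⟩ | ⟨h, _⟩
    · linarith
    · linarith
  exact lt_of_pow_lt_pow_left₀ 2 hγ.le h6

/-- LMI bound of an operator. -/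
noncomputable def muHatOp (θ : ℝ) (T : E →ₗ[ℂ] E) : ℝ := sInf {γ : ℝ | 0 < γ ∧ Feas θ T γ}

lemma muHatOp_nonneg (θ : ℝ) (T : E →ₗ[ℂ] E) : 0 ≤ muHatOp θ T :=
  Real.sInf_nonneg (fun _ h => h.1.le)

lemma bddBelow_feas (θ : ℝ) (T : E →ₗ[ℂ] E) : BddBelow {γ : ℝ | 0 < γ ∧ Feas θ T γ} :=
  ⟨0, fun _ h => h.1.le⟩

lemma muHatOp_le {θ : ℝ} {T : E →ₗ[ℂ] E} {γ : ℝ} (hγ : 0 < γ) (h : Feas θ T γ) :
    muHatOp θ T ≤ γ := csInf_le (bddBelow_feas θ T) ⟨hγ, h⟩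

variable [FiniteDimensional ℂ E]

lemma feas_nonempty {θ : ℝ} (h0 : 0 ≤ θ) (h1 : θ ≤ Real.pi / 2) (T : E →ₗ[ℂ] E) :
    {γ : ℝ | 0 < γ ∧ Feas θ T γ}.Nonempty := by
  set T' : E →L[ℂ] E := LinearMap.toContinuousLinearMap T with hT'
  have hTx : ∀ x, ‖T x‖ ≤ ‖T'‖ * ‖x‖ := fun x => T'.le_opNorm x
  refine ⟨‖T'‖ + 2, by positivity, 1, one_pos, 0, ?_, ?_⟩
  · intro h
    have : 0 ≤ Real.cot θ := by
      rw [Real.cot_eq_cos_div_sin]
      exact div_nonneg (cos_nonneg' h0 h1) (sin_nonneg' h0 h1)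
    constructor <;> linarith
  · intro x hx
    have hxn : 0 < ‖x‖ := norm_pos_iff.2 hx
    have hT := hTx x
    have hT0 : 0 ≤ ‖T'‖ := norm_nonneg _
    have hre : -(inner ℂ x (T x)).re ≤ ‖x‖ * (‖T'‖ * ‖x‖) := by
      have h2 : |(inner ℂ x (T x)).re| ≤ ‖(inner ℂ x (T x) : ℂ)‖ := Complex.abs_re_le_norm _
      have h3 : ‖(inner ℂ x (T x) : ℂ)‖ ≤ ‖x‖ * ‖T x‖ := norm_inner_le_norm _ _
      have h4 : ‖x‖ * ‖T x‖ ≤ ‖x‖ * (‖T'‖ * ‖x‖) := mul_le_mul_of_nonneg_left hT hxn.le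
      linarith [neg_abs_le (inner ℂ x (T x)).re]
    have hsq : ‖T x‖ ^ 2 ≤ (‖T'‖ * ‖x‖) ^ 2 := pow_le_pow_left₀ (norm_nonneg _) hT 2
    have hx2 : 0 < ‖x‖ ^ 2 := by positivity
    nlinarith [mul_nonneg hT0 hx2.le]

lemma norm_le_muHatOp {θ : ℝ} (h0 : 0 ≤ θ) (h1 : θ ≤ Real.pi / 2) {T : E →ₗ[ℂ] E} {x : E}
    (hx : ‖x‖ = 1) (hS : Sec θ (-(inner ℂ x (T x)))) : ‖T x‖ ≤ muHatOp θ T := by
  apply le_csInf (feas_nonempty h0 h1 T)
  rintro γ ⟨hγ, hF⟩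
  exact (feas_lt h0 h1 hγ hF hx hS).le

lemma isClosed_sec (θ : ℝ) : IsClosed {z : ℂ | Sec θ z} := by
  have hA : IsClosed {z : ℂ | 0 ≤ z.re} := isClosed_le continuous_const Complex.continuous_re
  have hB : IsClosed {z : ℂ | Real.cos θ * |z.im| ≤ Real.sin θ * z.re} :=
    isClosed_le (continuous_const.mul (continuous_abs.comp Complex.continuous_im))
      (continuous_const.mul Complex.continuous_re)
  exact hA.inter hB

lemma exists_unit_of_not_feas {θ : ℝ} (h0 : 0 ≤ θ) (h1 : θ ≤ Real.pi / 2) {T : E →ₗ[ℂ] E}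
    {γ γ' : ℝ} (hγ : 0 ≤ γ) (hγ' : γ < γ') (hF : ¬ Feas θ T γ') :
    ∃ x : E, ‖x‖ = 1 ∧ γ ≤ ‖T x‖ ∧ Sec θ (-(inner ℂ x (T x))) := by
  obtain ⟨x, hx0, hx1, hx2⟩ := dual_lemma h0 h1 T hγ hγ' hF
  have hxn : 0 < ‖x‖ := norm_pos_iff.2 hx0
  refine ⟨((‖x‖⁻¹ : ℝ) : ℂ) • x, ?_, ?_, ?_⟩
  · rw [norm_smul, Complex.norm_real, Real.norm_of_nonneg (by positivity)]
    field_simp
  · have hle : γ * ‖x‖ ≤ ‖T x‖ := by
      apply le_of_sq_le_sq _ (norm_nonneg _)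
      rw [mul_pow]; exact hx1
    rw [map_smul, norm_smul, Complex.norm_real, Real.norm_of_nonneg (by positivity)]
    rw [← div_eq_inv_mul, le_div_iff₀ hxn]
    exact hle
  · rw [map_smul, inner_smul_left, inner_smul_right, Complex.conj_ofReal]
    have : -(((‖x‖⁻¹ : ℝ) : ℂ) * (((‖x‖⁻¹ : ℝ) : ℂ) * inner ℂ x (T x)))
      = ((‖x‖⁻¹ : ℝ) : ℂ) * (((‖x‖⁻¹ : ℝ) : ℂ) * (-(inner ℂ x (T x)))) := by ring
    rw [this]
    exact Sec.smul (Sec.smul hx2 (by positivity)) (by positivity)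

/-- If the LMI bound is positive it is attained. -/
lemma muHatOp_attained {θ : ℝ} (h0 : 0 ≤ θ) (h1 : θ ≤ Real.pi / 2) {T : E →ₗ[ℂ] E}
    (hpos : 0 < muHatOp θ T) :
    ∃ x : E, ‖x‖ = 1 ∧ ‖T x‖ = muHatOp θ T ∧ Sec θ (-(inner ℂ x (T x))) := by
  have : ProperSpace E := FiniteDimensional.proper ℂ E
  have hTc : Continuous T := T.continuous_of_finiteDimensional
  have hnot : ∀ γ', 0 < γ' → γ' < muHatOp θ T → ¬ Feas θ T γ' := by
    intro γ' h hlt hF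
    exact absurd (muHatOp_le h hF) (not_le.2 hlt)
  set X : Set E := {x : E | ‖x‖ = 1 ∧ Sec θ (-(inner ℂ x (T x)))} with hX
  have hXc : IsCompact X := by
    have hcl : IsClosed X := by
      have hA : IsClosed {x : E | ‖x‖ = 1} := isClosed_eq continuous_norm continuous_const
      have hB : IsClosed {x : E | Sec θ (-(inner ℂ x (T x)))} :=
        (isClosed_sec θ).preimage (continuous_id.inner hTc).neg
      exact hA.inter hB
    apply Metric.isCompact_of_isClosed_isBounded hcl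
    apply (Metric.isBounded_closedBall (x := (0 : E)) (r := 1)).subset
    rintro x ⟨hx, _⟩
    simp [hx]
  have hXne : X.Nonempty := by
    obtain ⟨x, hx, _, hS⟩ := exists_unit_of_not_feas h0 h1 (T := T) (γ := 0)
      (γ' := muHatOp θ T / 2) le_rfl (by linarith) (hnot _ (by linarith) (by linarith))
    exact ⟨x, hx, hS⟩
  obtain ⟨x, hxX, hmax⟩ := hXc.exists_isMaxOn hXne hTc.norm.continuousOn
  refine ⟨x, hxX.1, ?_, hxX.2⟩
  apply le_antisymm (norm_le_muHatOp h0 h1 hxX.1 hxX.2)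
  by_contra hlt
  push Not at hlt
  set m := ‖T x‖ with hm
  have hm0 : 0 ≤ m := norm_nonneg _
  obtain ⟨y, hy, hym, hyS⟩ := exists_unit_of_not_feas h0 h1 (T := T) (γ := (2 * m + muHatOp θ T) / 3)
      (γ' := (m + muHatOp θ T) / 2) (by linarith) (by linarith) (hnot _ (by linarith) (by linarith))
  have : ‖T y‖ ≤ m := hmax ⟨hy, hyS⟩
  linarith

end Pool.Agent.Helper71.PhaseC
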