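import Mathlib
import Pool.Agent.Helper71.PhaseC

open Matrix Complex
open scoped ComplexOrder InnerProductSpace

namespace Pool.Agent.Helper71.PhaseD

open Pool.Agent.Helper71.PhaseA Pool.Agent.Helper71.PhaseB Pool.Agent.Helper71.PhaseC

variable {E : Type*} [NormedAddCommGroup E] [InnerProductSpace ℂ E] [FiniteDimensional ℂ E]

/-- A sectorial contraction that preserves the norm of `y` moves it by a bounded angle. -/
lemma angle_pos {θ : ℝ} (h0 : 0 < θ) (h1 : θ ≤ Real.pi / 2) {T : E →ₗ[ℂ] E}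
    (hS : ∀ x : E, Sec θ (inner ℂ x (T x))) (hT : ∀ x : E, ‖T x‖ ≤ ‖x‖) {y : E} (hy : ‖y‖ = 1)
    (hTy : ‖T y‖ = 1) : Real.cos θ ≤ (inner ℂ y (T y)).re := by
  set u := T y with hu
  set a : ℂ := inner ℂ y u with ha
  set g : ℂ := inner ℂ y (T u) with hg
  -- adjoint
  have hadj : T.adjoint u = y := by
    have hAu : ‖T.adjoint u‖ ≤ 1 := by
      have h2 : ‖T.adjoint u‖ ^ 2 ≤ ‖T.adjoint u‖ * 1 := by
        have h3 : ((‖T.adjoint u‖ ^ 2 : ℝ) : ℂ) = inner ℂ (T (T.adjoint u)) u := by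
          rw [← LinearMap.adjoint_inner_right, inner_self_eq_norm_sq_to_K]
          simp
        have h4 : ‖((‖T.adjoint u‖ ^ 2 : ℝ) : ℂ)‖ ≤ ‖T (T.adjoint u)‖ * ‖u‖ := by
          rw [h3]; exact norm_inner_le_norm _ _
        rw [Complex.norm_real, Real.norm_of_nonneg (by positivity)] at h4
        rw [hTy] at h4
        exact h4.trans (mul_le_mul_of_nonneg_right (hT _) zero_le_one)
      by_contra hlt
      push Not at hlt
      nlinarith
    have h5 : ‖T.adjoint u - y‖ ^ 2 ≤ 0 := by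
      rw [@norm_sub_sq ℂ, LinearMap.adjoint_inner_left, ← hu]
      rw [inner_self_eq_norm_sq_to_K, hTy, hy]
      have h6 : ‖T.adjoint u‖ ^ 2 ≤ 1 := by
        have := norm_nonneg (T.adjoint u)
        nlinarith
      simp
      linarith
    have h7 : ‖T.adjoint u - y‖ = 0 := by
      have := norm_nonneg (T.adjoint u - y)
      nlinarith
    exact sub_eq_zero.1 (norm_eq_zero.1 h7)
  have huu : inner ℂ u (T u) = a := by
    rw [← LinearMap.adjoint_inner_left, hadj]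
  have huy : (inner ℂ u (T y) : ℂ) = 1 := by
    rw [← hu, inner_self_eq_norm_sq_to_K, hTy]; simp
  -- the form on `y + c̄ u`
  have hform : ∀ c : ℂ, ‖c‖ = 1 → Sec θ (2 * a + c + (starRingEnd ℂ) c * g) := by
    intro c hc
    have hcc : (starRingEnd ℂ) c * c = 1 := by
      rw [mul_comm, Complex.mul_conj, Complex.normSq_eq_norm_sq, hc]; simp
    have := hS (y + (starRingEnd ℂ) c • u)
    rw [map_add, map_smul, inner_add_left, inner_add_right, inner_add_right, inner_smul_right,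
      inner_smul_left, inner_smul_left, inner_smul_right, huu, huy, ← hu, Complex.conj_conj,
      ← ha, ← hg] at this
    convert this using 1
    linear_combination (-a) * hcc
  have hsin := sin_pos' h0 h1
  have hcos := cos_nonneg' h0.le h1
  have hsc := Real.sin_sq_add_cos_sq θ
  -- main inequality for ω of norm one with half plane property
  have hmain : ∀ ω : ℂ, ‖ω‖ = 1 → (∀ z : ℂ, Sec θ z → 0 ≤ (ω * z).re) →
      ‖ω ^ 2 + (starRingEnd ℂ) g‖ ≤ 2 * (ω * a).re := by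
    intro ω hω hhalf
    set v : ℂ := ω + (starRingEnd ℂ) ω * (starRingEnd ℂ) g with hv
    have hωω : ω * (starRingEnd ℂ) ω = 1 := by
      rw [Complex.mul_conj, Complex.normSq_eq_norm_sq, hω]; simp
    have hnorm : ‖ω ^ 2 + (starRingEnd ℂ) g‖ = ‖v‖ := by
      have : ω ^ 2 + (starRingEnd ℂ) g = ω * v := by
        rw [hv]
        linear_combination (-(starRingEnd ℂ) g) * hωω
      rw [this, norm_mul, hω, one_mul]
    rw [hnorm]
    obtain ⟨c, hc1, hc⟩ : ∃ c : ℂ, ‖c‖ = 1 ∧ c * v = -(‖v‖ : ℂ) := by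
      by_cases hv0 : v = 0
      · exact ⟨1, by simp, by simp [hv0]⟩
      · refine ⟨-(starRingEnd ℂ) v / ‖v‖, ?_, ?_⟩
        · rw [norm_div, norm_neg, RCLike.norm_conj, Complex.norm_real, norm_norm,
            div_self (norm_ne_zero_iff.2 hv0)]
        · have hn : (‖v‖ : ℂ) ≠ 0 := by exact_mod_cast norm_ne_zero_iff.2 hv0
          have h2 : (starRingEnd ℂ) v * v = (‖v‖ : ℂ) ^ 2 := by
            rw [mul_comm, Complex.mul_conj, Complex.normSq_eq_norm_sq]; push_cast; ring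
          field_simp
          rw [h2]
    have h3 := hhalf _ (hform c hc1)
    have h4 : (ω * (2 * a + c + (starRingEnd ℂ) c * g)).re = 2 * (ω * a).re + (c * v).re := by
      have h5 : (ω * ((starRingEnd ℂ) c * g)).re = (c * ((starRingEnd ℂ) ω * (starRingEnd ℂ) g)).re := by
        rw [← Complex.conj_re (ω * ((starRingEnd ℂ) c * g))]
        simp only [map_mul, Complex.conj_conj]
        congr 1
        ring
      rw [hv]
      simp only [mul_add, Complex.add_re] at h5 ⊢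
      rw [h5]
      have h6 : (ω * (2 * a)).re = 2 * (ω * a).re := by
        rw [show ω * (2 * a) = ((2 : ℝ) : ℂ) * (ω * a) by push_cast; ring, Complex.re_ofReal_mul]
      rw [h6, mul_comm c ω]
      ring
    rw [h4, hc, Complex.neg_re, Complex.ofReal_re] at h3
    linarith
  have hω1 : ‖(⟨Real.sin θ, -Real.cos θ⟩ : ℂ)‖ = 1 := by
    rw [← sq_eq_sq₀ (norm_nonneg _) zero_le_one, Complex.sq_norm, Complex.normSq_apply]
    simp only
    nlinarith
  have hω2 : ‖(⟨Real.sin θ, Real.cos θ⟩ : ℂ)‖ = 1 := by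
    rw [← sq_eq_sq₀ (norm_nonneg _) zero_le_one, Complex.sq_norm, Complex.normSq_apply]
    simp only
    nlinarith
  have hh1 : ∀ z : ℂ, Sec θ z → 0 ≤ ((⟨Real.sin θ, -Real.cos θ⟩ : ℂ) * z).re := by
    rintro z ⟨hz1, hz2⟩
    rw [Complex.mul_re]
    simp only
    have := neg_abs_le z.im
    nlinarith
  have hh2 : ∀ z : ℂ, Sec θ z → 0 ≤ ((⟨Real.sin θ, Real.cos θ⟩ : ℂ) * z).re := by
    rintro z ⟨hz1, hz2⟩
    rw [Complex.mul_re]
    simp only
    have := le_abs_self z.im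
    nlinarith
  have k1 := hmain _ hω1 hh1
  have k2 := hmain _ hω2 hh2
  have k3 : ‖((⟨Real.sin θ, Real.cos θ⟩ : ℂ) ^ 2 - (⟨Real.sin θ, -Real.cos θ⟩ : ℂ) ^ 2)‖
      ≤ ‖(⟨Real.sin θ, Real.cos θ⟩ : ℂ) ^ 2 + (starRingEnd ℂ) g‖
        + ‖(⟨Real.sin θ, -Real.cos θ⟩ : ℂ) ^ 2 + (starRingEnd ℂ) g‖ := by
    have : ((⟨Real.sin θ, Real.cos θ⟩ : ℂ) ^ 2 - (⟨Real.sin θ, -Real.cos θ⟩ : ℂ) ^ 2)
      = ((⟨Real.sin θ, Real.cos θ⟩ : ℂ) ^ 2 + (starRingEnd ℂ) g)
        - ((⟨Real.sin θ, -Real.cos θ⟩ : ℂ) ^ 2 + (starRingEnd ℂ) g) := by ring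
    rw [this]
    exact norm_sub_le _ _
  have k4 : ((⟨Real.sin θ, Real.cos θ⟩ : ℂ) ^ 2 - (⟨Real.sin θ, -Real.cos θ⟩ : ℂ) ^ 2)
      = ((4 * Real.sin θ * Real.cos θ : ℝ) : ℂ) * I := by
    apply Complex.ext
    · simp only [pow_two, Complex.sub_re, Complex.mul_re, Complex.ofReal_re, Complex.ofReal_im,
        Complex.I_re, Complex.I_im]
      ring
    · simp only [pow_two, Complex.sub_im, Complex.mul_im, Complex.ofReal_re, Complex.ofReal_im,
        Complex.I_re, Complex.I_im]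
      ring
  rw [k4, norm_mul, Complex.norm_I, mul_one, Complex.norm_real, Real.norm_of_nonneg (by positivity)]
    at k3
  have k5 : 2 * ((⟨Real.sin θ, Real.cos θ⟩ : ℂ) * a).re + 2 * ((⟨Real.sin θ, -Real.cos θ⟩ : ℂ) * a).re
      = 4 * Real.sin θ * a.re := by
    rw [Complex.mul_re, Complex.mul_re]
    simp only
    ring
  have k6 : 4 * Real.sin θ * Real.cos θ ≤ 4 * Real.sin θ * a.re := by linarith
  have k7 : 0 < 4 * Real.sin θ := by positivity
  exact le_of_mul_le_mul_left k6 k7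

lemma angle {θ : ℝ} (h0 : 0 ≤ θ) (h1 : θ ≤ Real.pi / 2) {T : E →ₗ[ℂ] E}
    (hS : ∀ x : E, Sec θ (inner ℂ x (T x))) (hT : ∀ x : E, ‖T x‖ ≤ ‖x‖) {y : E} (hy : ‖y‖ = 1)
    (hTy : ‖T y‖ = 1) : Real.cos θ ≤ (inner ℂ y (T y)).re := by
  rcases h0.eq_or_lt with h | h
  · subst h
    have hall : ∀ ε : ℝ, 0 < ε → ε ≤ Real.pi / 2 → Real.cos ε ≤ (inner ℂ y (T y)).re := by
      intro ε hε hε'
      apply angle_pos hε hε' _ hT hy hTy
      intro x
      have hx := hS x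
      have hi := Sec.im_zero hx
      refine ⟨hx.1, ?_⟩
      rw [hi, abs_zero, mul_zero]
      exact mul_nonneg (sin_nonneg' hε.le hε') hx.1
    have hlim : Filter.Tendsto Real.cos (nhdsWithin 0 (Set.Ioi 0)) (nhds (Real.cos 0)) :=
      (Real.continuous_cos.tendsto 0).mono_left nhdsWithin_le_nhds
    apply le_of_tendsto hlim
    have : Set.Ioo (0 : ℝ) (Real.pi / 2) ∈ nhdsWithin (0 : ℝ) (Set.Ioi 0) :=
      Ioo_mem_nhdsGT (by positivity)
    filter_upwards [this] with ε hε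
    exact hall ε hε.1 hε.2.le
  · exact angle_pos h h1 hS hT hy hTy

omit [FiniteDimensional ℂ E]

/-- The Householder map of `v`. -/
noncomputable def house (v : E) : E →ₗ[ℂ] E :=
  LinearMap.id - ((2 / ‖v‖ ^ 2 : ℝ) : ℂ) • ((innerSL ℂ v : E →L[ℂ] ℂ) : E →ₗ[ℂ] ℂ).smulRight v

lemma house_apply (v x : E) :
    house v x = x - ((2 / ‖v‖ ^ 2 : ℝ) : ℂ) • ((inner ℂ v x : ℂ) • v) := by
  simp [house]

lemma inner_house (v x : E) :
    (inner ℂ x (house v x) : ℂ) = ((‖x‖ ^ 2 - (2 / ‖v‖ ^ 2) * ‖(inner ℂ v x : ℂ)‖ ^ 2 : ℝ) : ℂ) := by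
  rw [house_apply, inner_sub_right, inner_smul_right, inner_smul_right, inner_self_eq_norm_sq_to_K]
  have : (inner ℂ v x : ℂ) * (inner ℂ x v : ℂ) = ((‖(inner ℂ v x : ℂ)‖ ^ 2 : ℝ) : ℂ) := by
    rw [← inner_conj_symm x v, Complex.mul_conj, Complex.normSq_eq_norm_sq]
  rw [this]
  push_cast
  simp

lemma norm_house (v x : E) : ‖house v x‖ = ‖x‖ := by
  have h : ‖house v x‖ ^ 2 = ‖x‖ ^ 2 := by
    rw [house_apply, @norm_sub_sq ℂ, inner_smul_right, inner_smul_right, norm_smul, norm_smul]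
    have h1 : (inner ℂ v x : ℂ) * (inner ℂ x v : ℂ) = ((‖(inner ℂ v x : ℂ)‖ ^ 2 : ℝ) : ℂ) := by
      rw [← inner_conj_symm x v, Complex.mul_conj, Complex.normSq_eq_norm_sq]
    rw [h1, ← Complex.ofReal_mul, RCLike.re_to_complex, Complex.ofReal_re, Complex.norm_real,
      Real.norm_of_nonneg (by positivity)]
    by_cases hv : v = 0
    · simp [hv]
    · have : 0 < ‖v‖ := norm_pos_iff.2 hv
      field_simp
      ring
  exact (sq_eq_sq₀ (norm_nonneg _) (norm_nonneg _)).1 h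

lemma house_sub {y h : E} (hy : ‖y‖ = 1) (hh : ‖h‖ = 1) (him : (inner ℂ y h : ℂ).im = 0) :
    house (y - h) y = h := by
  set ρ : ℝ := (inner ℂ y h : ℂ).re with hρ
  have e1 : (inner ℂ y h : ℂ) = (ρ : ℂ) := by
    apply Complex.ext <;> simp [hρ, him]
  have e2 : (inner ℂ h y : ℂ) = (ρ : ℂ) := by
    rw [← inner_conj_symm, e1, Complex.conj_ofReal]
  have hn : ‖y - h‖ ^ 2 = 2 - 2 * ρ := by
    rw [@norm_sub_sq ℂ, hy, hh, RCLike.re_to_complex, ← hρ]; ring
  have hi : (inner ℂ (y - h) y : ℂ) = ((1 - ρ : ℝ) : ℂ) := by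
    rw [inner_sub_left, e2, inner_self_eq_norm_sq_to_K, hy]; simp
  rw [house_apply, hn, hi]
  by_cases h1 : ρ = 1
  · have : y - h = 0 := by
      rw [← norm_eq_zero]
      have : ‖y - h‖ ^ 2 = 0 := by rw [hn, h1]; ring
      exact pow_eq_zero_iff (two_ne_zero) |>.1 this
    rw [this, smul_zero, smul_zero, sub_zero]
    exact sub_eq_zero.1 this
  · rw [smul_smul, ← Complex.ofReal_mul]
    have : 2 / (2 - 2 * ρ) * (1 - ρ) = 1 := by
      have : 1 - ρ ≠ 0 := sub_ne_zero.2 (Ne.symm h1)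
      field_simp
    rw [this, Complex.ofReal_one, one_smul]
    abel

/-- Existence of a sectorial contraction with prescribed value. -/
lemma exists_sectorial {θ : ℝ} (h0 : 0 ≤ θ) (h1 : θ ≤ Real.pi / 2) {y u : E} (hy : ‖y‖ = 1)
    (hu : ‖u‖ = 1) (hcos : Real.cos θ ≤ (inner ℂ y u : ℂ).re) :
    ∃ T : E →ₗ[ℂ] E, T y = u ∧ (∀ x, ‖T x‖ ≤ ‖x‖) ∧ ∀ x, Sec θ (inner ℂ x (T x)) := by
  set c : ℝ := (inner ℂ y u : ℂ).re with hc
  have hcos0 := cos_nonneg' h0 h1
  have hsin0 := sin_nonneg' h0 h1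
  have hc0 : 0 ≤ c := hcos0.trans hcos
  have hc1 : c ≤ 1 := by
    have h2 : |c| ≤ ‖(inner ℂ y u : ℂ)‖ := Complex.abs_re_le_norm _
    have h3 : ‖(inner ℂ y u : ℂ)‖ ≤ ‖y‖ * ‖u‖ := norm_inner_le_norm _ _
    rw [hy, hu, one_mul] at h3
    exact (le_abs_self c).trans (h2.trans h3)
  set s : ℝ := Real.sqrt (1 - c ^ 2) with hs
  have hs0 : 0 ≤ s := Real.sqrt_nonneg _
  have hs2 : s ^ 2 = 1 - c ^ 2 := Real.sq_sqrt (by nlinarith)
  have hssin : s ≤ Real.sin θ := by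
    apply le_of_sq_le_sq _ hsin0
    have := Real.sin_sq_add_cos_sq θ
    nlinarith
  have hns : ‖u - (c : ℂ) • y‖ ^ 2 = s ^ 2 := by
    rw [@norm_sub_sq ℂ, norm_smul, hu, hy, inner_smul_right, ← inner_conj_symm, RCLike.re_to_complex,
      Complex.re_ofReal_mul, Complex.conj_re, ← hc, Complex.norm_real, Real.norm_of_nonneg hc0, hs2]
    ring
  -- the vector h
  obtain ⟨v, hv⟩ : ∃ v : E, (c : ℂ) • y + (I * (s : ℂ)) • house v y = u := by
    by_cases hs' : s = 0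
    · refine ⟨0, ?_⟩
      rw [hs', Complex.ofReal_zero, mul_zero, zero_smul, add_zero]
      rw [hs', zero_pow two_ne_zero] at hns
      have : ‖u - (c : ℂ) • y‖ = 0 := pow_eq_zero_iff (two_ne_zero) |>.1 hns
      exact (sub_eq_zero.1 (norm_eq_zero.1 this)).symm
    · have hspos : 0 < s := lt_of_le_of_ne hs0 (Ne.symm hs')
      have hsc : (s : ℂ) ≠ 0 := by exact_mod_cast hs'
      have hIs : I * (s : ℂ) ≠ 0 := mul_ne_zero Complex.I_ne_zero hsc
      set h : E := (I * (s : ℂ))⁻¹ • (u - (c : ℂ) • y) with hh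
      have hhn : ‖h‖ = 1 := by
        have hsn : ‖u - (c : ℂ) • y‖ = s := (sq_eq_sq₀ (norm_nonneg _) hs0).1 hns
        rw [hh, norm_smul, norm_inv, norm_mul, Complex.norm_I, one_mul, Complex.norm_real,
          Real.norm_of_nonneg hs0, hsn]
        field_simp
      have him : (inner ℂ y h : ℂ).im = 0 := by
        rw [hh, inner_smul_right, inner_sub_right, inner_smul_right, inner_self_eq_norm_sq_to_K, hy]
        have : (inner ℂ y u : ℂ) - (c : ℂ) * ((1 : ℝ) : ℂ) ^ 2 = I * ((inner ℂ y u : ℂ).im : ℂ) := by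
          apply Complex.ext <;> simp [hc]
        have e : (inner ℂ y u : ℂ) - (c : ℂ) * ((RCLike.ofReal (1 : ℝ)) : ℂ) ^ 2 = I * ((inner ℂ y u : ℂ).im : ℂ) := this
        rw [e]
        have : (I * (s : ℂ))⁻¹ * (I * ((inner ℂ y u : ℂ).im : ℂ)) = (((inner ℂ y u : ℂ).im / s : ℝ) : ℂ) := by
          push_cast
          field_simp
        rw [this, Complex.ofReal_im]
      refine ⟨y - h, ?_⟩
      rw [house_sub hy hhn him, hh, smul_smul, mul_inv_cancel₀ hIs, one_smul]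
      abel
  refine ⟨(c : ℂ) • LinearMap.id + (I * (s : ℂ)) • house v, ?_, ?_, ?_⟩
  · simpa using hv
  · intro x
    apply le_of_sq_le_sq _ (norm_nonneg _)
    have happ : ((c : ℂ) • LinearMap.id + (I * (s : ℂ)) • house v : E →ₗ[ℂ] E) x
      = (c : ℂ) • x + (I * (s : ℂ)) • house v x := by simp
    rw [happ, @norm_add_sq ℂ, norm_smul, norm_smul, inner_smul_left, inner_smul_right, inner_house,
      norm_house, norm_mul, Complex.norm_I, one_mul, Complex.norm_real, Complex.norm_real,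
      Real.norm_of_nonneg hs0, Real.norm_of_nonneg hc0, RCLike.re_to_complex, Complex.conj_ofReal]
    have : ∀ r : ℝ, ((c : ℂ) * ((I * (s : ℂ)) * (r : ℂ))).re = 0 := by
      intro r
      simp
    rw [this]
    nlinarith [sq_nonneg ‖x‖]
  · intro x
    have happ : ((c : ℂ) • LinearMap.id + (I * (s : ℂ)) • house v : E →ₗ[ℂ] E) x
      = (c : ℂ) • x + (I * (s : ℂ)) • house v x := by simp
    rw [happ, inner_add_right, inner_smul_right, inner_smul_right, inner_house,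
      inner_self_eq_norm_sq_to_K]
    set r : ℝ := ‖x‖ ^ 2 - (2 / ‖v‖ ^ 2) * ‖(inner ℂ v x : ℂ)‖ ^ 2 with hr
    have hr1 : |r| ≤ ‖x‖ ^ 2 := by
      rw [abs_le]
      have h2 : ‖(inner ℂ v x : ℂ)‖ ≤ ‖v‖ * ‖x‖ := norm_inner_le_norm _ _
      have h3 : ‖(inner ℂ v x : ℂ)‖ ^ 2 ≤ (‖v‖ * ‖x‖) ^ 2 := pow_le_pow_left₀ (norm_nonneg _) h2 2
      have h4 : 2 / ‖v‖ ^ 2 * ‖(inner ℂ v x : ℂ)‖ ^ 2 ≤ 2 * ‖x‖ ^ 2 := by
        by_cases hv0 : v = 0
        · simp [hv0]
        · have : 0 < ‖v‖ := norm_pos_iff.2 hv0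
          rw [div_mul_eq_mul_div, div_le_iff₀ (by positivity)]
          nlinarith
      have h5 : 0 ≤ 2 / ‖v‖ ^ 2 * ‖(inner ℂ v x : ℂ)‖ ^ 2 := by positivity
      constructor <;> rw [hr] <;> linarith
    have hre : ((c : ℂ) * ((RCLike.ofReal ‖x‖ : ℂ)) ^ 2 + I * (s : ℂ) * (r : ℂ)).re = c * ‖x‖ ^ 2 := by
      have e : (RCLike.ofReal ‖x‖ : ℂ) = ((‖x‖ : ℝ) : ℂ) := rfl
      rw [e, ← Complex.ofReal_pow]
      simp only [Complex.add_re, Complex.mul_re, Complex.mul_im, Complex.ofReal_re,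
        Complex.ofReal_im, Complex.I_re, Complex.I_im]
      ring
    have him : ((c : ℂ) * ((RCLike.ofReal ‖x‖ : ℂ)) ^ 2 + I * (s : ℂ) * (r : ℂ)).im = s * r := by
      have e : (RCLike.ofReal ‖x‖ : ℂ) = ((‖x‖ : ℝ) : ℂ) := rfl
      rw [e, ← Complex.ofReal_pow]
      simp only [Complex.add_im, Complex.mul_re, Complex.mul_im, Complex.ofReal_re,
        Complex.ofReal_im, Complex.I_re, Complex.I_im]
      ring
    refine ⟨?_, ?_⟩
    · rw [hre]; positivity
    · rw [hre, him, abs_mul, abs_of_nonneg hs0]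
      have hx2 : 0 ≤ ‖x‖ ^ 2 := by positivity
      calc Real.cos θ * (s * |r|) ≤ Real.cos θ * (s * ‖x‖ ^ 2) := by gcongr
        _ = (Real.cos θ * s) * ‖x‖ ^ 2 := by ring
        _ ≤ (Real.sin θ * c) * ‖x‖ ^ 2 := by
            apply mul_le_mul_of_nonneg_right _ hx2
            nlinarith
        _ = Real.sin θ * (c * ‖x‖ ^ 2) := by ring

end Pool.Agent.Helper71.PhaseD
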