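import Mathlib
import Pool.Agent.Helper71.PhaseD

open Matrix Complex
open scoped ComplexOrder InnerProductSpace

namespace Pool.Agent.Helper71.PhaseE

open Pool.Agent.Helper71.PhaseA Pool.Agent.Helper71.PhaseB Pool.Agent.Helper71.PhaseC

section matrixforms

variable {n : ℕ}

lemma posSemidef_iff_inner (A : Matrix (Fin n) (Fin n) ℂ) :
    A.PosSemidef ↔ A.IsHermitian ∧
      ∀ x : EuclideanSpace ℂ (Fin n), 0 ≤ (inner ℂ x (toEuclideanLin A x)).re := by
  rw [← Matrix.isPositive_toEuclideanLin_iff, LinearMap.IsPositive,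
    Matrix.isSymmetric_toEuclideanLin_iff]
  apply and_congr_right
  intro _
  apply forall_congr'
  intro x
  rw [inner_re_symm]
  rfl

lemma posDef_iff_inner (A : Matrix (Fin n) (Fin n) ℂ) :
    A.PosDef ↔ A.IsHermitian ∧
      ∀ x : EuclideanSpace ℂ (Fin n), x ≠ 0 → 0 < (inner ℂ x (toEuclideanLin A x)).re := by
  rw [Matrix.posDef_iff_dotProduct_mulVec]
  apply and_congr_right
  intro hA
  have key : ∀ x : EuclideanSpace ℂ (Fin n),
      (inner ℂ x (toEuclideanLin A x) : ℂ) = star (WithLp.ofLp x) ⬝ᵥ A *ᵥ (WithLp.ofLp x) := by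
    intro x
    rw [EuclideanSpace.inner_eq_star_dotProduct, dotProduct_comm]
    rfl
  constructor
  · intro h x hx
    have hx' : WithLp.ofLp x ≠ 0 := by
      intro h0
      apply hx
      exact (WithLp.ofLp_eq_zero 2).1 h0
    have := h hx'
    rw [← key] at this
    exact (Complex.pos_iff.1 this).1
  · intro h x hx
    have hx' : (WithLp.toLp 2 x : EuclideanSpace ℂ (Fin n)) ≠ 0 := by
      intro h0
      apply hx
      exact (WithLp.toLp_eq_zero 2).1 h0
    have h1 := h _ hx'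
    rw [key] at h1
    rw [Complex.pos_iff]
    refine ⟨h1, ?_⟩
    have := hA.im_star_dotProduct_mulVec_self x
    exact this.symm

lemma toLin_conjTranspose_inner (A : Matrix (Fin n) (Fin n) ℂ) (x : EuclideanSpace ℂ (Fin n)) :
    (inner ℂ x (toEuclideanLin Aᴴ x) : ℂ) = (starRingEnd ℂ) (inner ℂ x (toEuclideanLin A x)) := by
  rw [Matrix.toEuclideanLin_conjTranspose_eq_adjoint, LinearMap.adjoint_inner_right,
    inner_conj_symm]

lemma toLin_mul_apply (A B : Matrix (Fin n) (Fin n) ℂ) (x : EuclideanSpace ℂ (Fin n)) :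
    toEuclideanLin (A * B) x = toEuclideanLin A (toEuclideanLin B x) := by
  simp only [Matrix.toLpLin_apply, Matrix.mulVec_mulVec]

lemma toLin_one_apply (x : EuclideanSpace ℂ (Fin n)) :
    toEuclideanLin (1 : Matrix (Fin n) (Fin n) ℂ) x = x := by
  simp only [Matrix.toLpLin_apply, Matrix.one_mulVec]

lemma inner_conjTranspose_mul_self (A : Matrix (Fin n) (Fin n) ℂ) (x : EuclideanSpace ℂ (Fin n)) :
    (inner ℂ x (toEuclideanLin (Aᴴ * A) x) : ℂ) = ((‖toEuclideanLin A x‖ ^ 2 : ℝ) : ℂ) := by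
  rw [toLin_mul_apply, Matrix.toEuclideanLin_conjTranspose_eq_adjoint,
    LinearMap.adjoint_inner_right, inner_self_eq_norm_sq_to_K]
  simp

lemma inner_self_real (x : EuclideanSpace ℂ (Fin n)) :
    (inner ℂ x x : ℂ) = ((‖x‖ ^ 2 : ℝ) : ℂ) := by
  rw [inner_self_eq_norm_sq_to_K]; simp

/-- the largest singular value is the operator norm -/
lemma norm_le_singularValue (A : Matrix (Fin n) (Fin n) ℂ) (x : EuclideanSpace ℂ (Fin n)) :
    ‖toEuclideanLin A x‖ ≤ (toEuclideanLin A).singularValues 0 * ‖x‖ := by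
  set T := toEuclideanLin A with hT
  have hs0 : 0 ≤ T.singularValues 0 := T.singularValues_nonneg 0
  have hsym := T.isSymmetric_adjoint_comp_self
  have hfr : Module.finrank ℂ (EuclideanSpace ℂ (Fin n)) = n := by simp
  set b := hsym.eigenvectorBasis hfr with hb
  have h1 : ∀ i, hsym.eigenvalues hfr i ≤ T.singularValues 0 ^ 2 := by
    intro i
    rw [← T.sq_singularValues_fin hfr i]
    exact pow_le_pow_left₀ (T.singularValues_nonneg _) (T.singularValues_antitone (Nat.zero_le _)) 2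
  have h2 : ‖T x‖ ^ 2 = ∑ i, hsym.eigenvalues hfr i * ‖(inner ℂ (b i) x : ℂ)‖ ^ 2 := by
    have e1 : ((‖T x‖ ^ 2 : ℝ) : ℂ) = inner ℂ x ((T.adjoint ∘ₗ T) x) := by
      rw [LinearMap.comp_apply, LinearMap.adjoint_inner_right, inner_self_eq_norm_sq_to_K]
      simp
    have e2 : (inner ℂ x ((T.adjoint ∘ₗ T) x) : ℂ)
        = ∑ i, inner ℂ x (b i) * inner ℂ (b i) ((T.adjoint ∘ₗ T) x) :=
      (b.sum_inner_mul_inner x ((T.adjoint ∘ₗ T) x)).symm
    have e3 : ∀ i, (inner ℂ (b i) ((T.adjoint ∘ₗ T) x) : ℂ)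
        = (hsym.eigenvalues hfr i : ℂ) * inner ℂ (b i) x := by
      intro i
      rw [← hsym (b i) x, hb, hsym.apply_eigenvectorBasis, inner_smul_left]
      simp
    have e4 : ((‖T x‖ ^ 2 : ℝ) : ℂ)
        = ((∑ i, hsym.eigenvalues hfr i * ‖(inner ℂ (b i) x : ℂ)‖ ^ 2 : ℝ) : ℂ) := by
      rw [e1, e2, Complex.ofReal_sum]
      apply Finset.sum_congr rfl
      intro i _
      rw [e3 i, Complex.ofReal_mul]
      have : (inner ℂ x (b i) : ℂ) * inner ℂ (b i) x = ((‖(inner ℂ (b i) x : ℂ)‖ ^ 2 : ℝ) : ℂ) := by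
        rw [← inner_conj_symm x (b i), mul_comm, Complex.mul_conj, Complex.normSq_eq_norm_sq]
      calc (inner ℂ x (b i) : ℂ) * ((hsym.eigenvalues hfr i : ℂ) * inner ℂ (b i) x)
          = (hsym.eigenvalues hfr i : ℂ) * ((inner ℂ x (b i) : ℂ) * inner ℂ (b i) x) := by ring
        _ = _ := by rw [this]
    exact_mod_cast e4
  have h3 : ∑ i, ‖(inner ℂ (b i) x : ℂ)‖ ^ 2 = ‖x‖ ^ 2 := b.sum_sq_norm_inner_right x
  apply le_of_sq_le_sq _ (by positivity)
  rw [h2, mul_pow, ← h3, Finset.mul_sum]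
  apply Finset.sum_le_sum
  intro i _
  exact mul_le_mul_of_nonneg_right (h1 i) (by positivity)

lemma singularValue_le {A : Matrix (Fin n) (Fin n) ℂ} {C : ℝ} (hC : 0 ≤ C)
    (h : ∀ x : EuclideanSpace ℂ (Fin n), ‖toEuclideanLin A x‖ ≤ C * ‖x‖) :
    (toEuclideanLin A).singularValues 0 ≤ C := by
  set T := toEuclideanLin A with hT
  by_cases hn : 0 < Module.finrank ℂ (EuclideanSpace ℂ (Fin n))
  · have := T.hasEigenvalue_adjoint_comp_self_sq_singularValues hn
    obtain ⟨v, hv⟩ := this.exists_hasEigenvector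
    have hv0 := hv.2
    have hvn : 0 < ‖v‖ := norm_pos_iff.2 hv0
    have e1 : ((‖T v‖ ^ 2 : ℝ) : ℂ) = inner ℂ v ((T.adjoint ∘ₗ T) v) := by
      rw [LinearMap.comp_apply, LinearMap.adjoint_inner_right, inner_self_eq_norm_sq_to_K]
      simp
    rw [hv.apply_eq_smul, inner_smul_right, inner_self_eq_norm_sq_to_K] at e1
    have e2 : ‖T v‖ ^ 2 = (T.singularValues 0 * ‖v‖) ^ 2 := by
      have : ((‖T v‖ ^ 2 : ℝ) : ℂ) = (((T.singularValues 0 * ‖v‖) ^ 2 : ℝ) : ℂ) := by
        rw [e1]; push_cast; simp [mul_pow]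
      exact_mod_cast this
    have e3 : ‖T v‖ = T.singularValues 0 * ‖v‖ :=
      (sq_eq_sq₀ (norm_nonneg _) (mul_nonneg (T.singularValues_nonneg 0) hvn.le)).1 e2
    have := h v
    rw [e3] at this
    exact le_of_mul_le_mul_right this hvn
  · rw [T.singularValues_of_finrank_le (by omega)]
    exact hC

end matrixforms

section separation

variable {E : Type*} [NormedAddCommGroup E] [InnerProductSpace ℂ E] [FiniteDimensional ℂ E]

/-- An S-lemma with one equality constraint. -/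
lemma exists_unit_or_multiplier {f g : E → ℝ} (hf : IsForm f) (hg : IsForm g)
    (hfc : Continuous f) (hgc : Continuous g)
    (hno : ∀ l : ℝ, ¬ ∀ x : E, x ≠ 0 → 0 < g x - l * f x) :
    ∃ x : E, ‖x‖ = 1 ∧ f x = 0 ∧ g x ≤ 0 := by
  by_contra hcon
  push Not at hcon
  have : ProperSpace E := FiniteDimensional.proper ℂ E
  let Φ : E → ℝ × ℝ := fun x => (f x, g x)
  have hΦc : Continuous Φ := hfc.prodMk hgc
  set C : Set (ℝ × ℝ) := convexHull ℝ (Φ '' Metric.sphere 0 1) with hC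
  have hCc : IsCompact C := isCompact_convexHull_of_isCompact ((isCompact_sphere 0 1).image hΦc)
  set K : Set (ℝ × ℝ) := {p : ℝ × ℝ | p.1 = 0 ∧ p.2 ≤ 0} with hK
  have hKcl : IsClosed K := by
    have hA : IsClosed {p : ℝ × ℝ | p.1 = 0} := isClosed_eq continuous_fst continuous_const
    have hB : IsClosed {p : ℝ × ℝ | p.2 ≤ 0} := isClosed_le continuous_snd continuous_const
    exact hA.inter hB
  have hKconv : Convex ℝ K := by
    rintro ⟨p1, p2⟩ ⟨hp1, hp2⟩ ⟨q1, q2⟩ ⟨hq1, hq2⟩ a b ha hb hab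
    simp only at hp1 hp2 hq1 hq2
    subst hp1 hq1
    simp only [hK, Prod.smul_mk, Prod.mk_add_mk, smul_eq_mul, mul_zero, add_zero,
      Set.mem_ofPred_eq, true_and]
    nlinarith
  have hh : IsForm (fun x : E => ‖(LinearMap.id : E →ₗ[ℂ] E) x‖ ^ 2) := isForm_normSq _
  have hdisj : Disjoint C K := by
    rw [Set.disjoint_left]
    intro k hkC hkK
    have hsub : C ⊆ {p : ℝ × ℝ | ∃ x : E,
        ((f x, g x, ‖(LinearMap.id : E →ₗ[ℂ] E) x‖ ^ 2) : ℝ × ℝ × ℝ) = (p.1, p.2, 1)} := by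
      apply convexHull_min
      · rintro _ ⟨x, hx, rfl⟩
        refine ⟨x, ?_⟩
        have hx1 : ‖x‖ = 1 := by simpa using hx
        simp [Φ, hx1]
      · have hconv := convex_range hf hg hh
        intro p hp q hq a b ha hb hab
        obtain ⟨x, hx⟩ := hconv hp hq ha hb hab
        refine ⟨x, ?_⟩
        rw [hx]
        ext
        · simp
        · simp
        · simp [hab]
    obtain ⟨x, hx⟩ := hsub hkC
    simp only [Prod.mk.injEq, LinearMap.id_apply] at hx
    obtain ⟨hx1, hx2, hx3⟩ := hx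
    have hxn : ‖x‖ = 1 := by
      have := norm_nonneg x
      nlinarith
    have := hcon x hxn (by rw [hx1]; exact hkK.1)
    rw [hx2] at this
    exact absurd hkK.2 (not_le.2 this)
  obtain ⟨F, c1, c2, hFC, hc12, hFK⟩ := geometric_hahn_banach_compact_closed
    (convex_convexHull ℝ (Φ '' Metric.sphere 0 1)) hCc hKconv hKcl hdisj
  have hc2 : c2 < 0 := by
    have : (0 : ℝ × ℝ) ∈ K := by simp [hK]
    simpa using hFK 0 this
  set r0 : ℝ := F (1, 0) with hr0
  set s0 : ℝ := -F (0, 1) with hs0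
  have hFform : ∀ a b : ℝ, F (a, b) = r0 * a - s0 * b := by
    intro a b
    have : ((a, b) : ℝ × ℝ) = a • (1, 0) + b • (0, 1) := by
      ext <;> simp
    rw [this, map_add, map_smul, map_smul, smul_eq_mul, smul_eq_mul, hr0, hs0]
    ring
  have hs0' : 0 ≤ s0 := by
    by_contra hneg
    push Not at hneg
    have hmem : ((0, c2 / (-s0)) : ℝ × ℝ) ∈ K := by
      simp only [hK, Set.mem_ofPred_eq, true_and]
      exact div_nonpos_of_nonpos_of_nonneg hc2.le (by linarith)
    have := hFK _ hmem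
    rw [hFform] at this
    have e : r0 * 0 - s0 * (c2 / (-s0)) = c2 := by
      have := hneg.ne
      field_simp
      ring
    rw [e] at this
    exact lt_irrefl _ this
  obtain ⟨B, hB⟩ : ∃ B : ℝ, ∀ x : E, ‖x‖ = 1 → |g x| ≤ B := by
    obtain ⟨B, hB⟩ := (isCompact_sphere (0 : E) 1).bddAbove_image
      (continuous_abs.comp hgc).continuousOn
    exact ⟨B, fun x hx => hB ⟨x, by simpa using hx, rfl⟩⟩
  have hB0 : 0 < |B| + 1 := by positivity
  set ε : ℝ := (-c1) / (|B| + 1) with hε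
  have hc1 : c1 < 0 := by linarith
  have hεpos : 0 < ε := div_pos (by linarith) hB0
  have hεB : ε * (|B| + 1) = -c1 := by rw [hε]; field_simp
  have hs1 : 0 < s0 + ε := by linarith
  apply hno (r0 / (s0 + ε))
  intro x hx
  have hxn : 0 < ‖x‖ := norm_pos_iff.2 hx
  set y : E := ((‖x‖⁻¹ : ℝ) : ℂ) • x with hy
  have hyn : ‖y‖ = 1 := by
    rw [hy, norm_smul, Complex.norm_real, Real.norm_of_nonneg (by positivity)]
    field_simp
  have hxy : x = ((‖x‖ : ℝ) : ℂ) • y := by
    rw [hy, smul_smul, ← Complex.ofReal_mul, mul_inv_cancel₀ hxn.ne', Complex.ofReal_one, one_smul]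
  have e1 : f x = ‖x‖ ^ 2 * f y := by
    have := form_smul hf ‖x‖ y
    rwa [← hxy] at this
  have e2 : g x = ‖x‖ ^ 2 * g y := by
    have := form_smul hg ‖x‖ y
    rwa [← hxy] at this
  have hyC := hFC (Φ y) (subset_convexHull ℝ _ ⟨y, by simpa using hyn, rfl⟩)
  simp only [Φ] at hyC
  rw [hFform] at hyC
  have hBy := hB y hyn
  have habs := abs_le.1 (le_refl |g y|)
  have hBB := le_abs_self B
  have h3 : -(ε * g y) ≤ ε * (|B| + 1) := by
    have : -(ε * g y) = ε * (-g y) := by ring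
    rw [this]
    apply mul_le_mul_of_nonneg_left _ hεpos.le
    linarith [habs.1]
  have key : r0 * f y - (s0 + ε) * g y < 0 := by nlinarith
  rw [e1, e2]
  have : ‖x‖ ^ 2 * g y - r0 / (s0 + ε) * (‖x‖ ^ 2 * f y)
      = (‖x‖ ^ 2 / (s0 + ε)) * (-(r0 * f y - (s0 + ε) * g y)) := by
    field_simp
    ring
  rw [this]
  apply mul_pos (by positivity)
  linarith

end separation

end Pool.Agent.Helper71.PhaseE
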